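import Pool.Agent.H717.NL.Stmts2

set_option autoImplicit false
set_option linter.all false

open Polynomial Matrix

namespace Pool.Agent.H407.NL

open Pool.Agent.H717.NL

theorem t_kyfan (h : S_basis) : S_kyfan := by
  intro n M l v hM hl hv
  obtain ⟨u, hu, hMu⟩ := h n M l hM hl
  set V : Matrix (Fin n) (Fin n) ℝ := Matrix.of v with hV
  set U : Matrix (Fin n) (Fin n) ℝ := Matrix.of u with hU
  have hVV : V * Vᵀ = 1 := by
    ext i j
    rw [Matrix.mul_apply, Matrix.one_apply]
    simpa [hV] using hv i j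
  have hUU : U * Uᵀ = 1 := by
    ext i j
    rw [Matrix.mul_apply, Matrix.one_apply]
    simpa [hU] using hu i j
  have hUU' : Uᵀ * U = 1 := mul_eq_one_comm.1 hUU
  have hMU : M * Uᵀ = Uᵀ * Matrix.diagonal l := by
    ext i j
    rw [Matrix.mul_diagonal, Matrix.mul_apply]
    have := congrFun (hMu j) i
    simp only [Matrix.mulVec, dotProduct, Pi.smul_apply, smul_eq_mul] at this
    simp only [hU, Matrix.transpose_apply, Matrix.of_apply]
    rw [this]
    ring
  have hMeq : M = Uᵀ * Matrix.diagonal l * U := by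
    rw [← hMU, Matrix.mul_assoc, hUU', Matrix.mul_one]
  set P : Matrix (Fin n) (Fin n) ℝ := V * Uᵀ with hP
  have hPP : P * Pᵀ = 1 := by
    rw [hP, Matrix.transpose_mul, Matrix.transpose_transpose, Matrix.mul_assoc,
      ← Matrix.mul_assoc Uᵀ U, hUU', Matrix.one_mul, hVV]
  have hPP' : Pᵀ * P = 1 := mul_eq_one_comm.1 hPP
  have hVMV : V * M * Vᵀ = P * Matrix.diagonal l * Pᵀ := by
    rw [hMeq, hP, Matrix.transpose_mul, Matrix.transpose_transpose]
    simp only [Matrix.mul_assoc]
  have hqf : ∀ i, qf M (v i) (v i) = ∑ j, P i j ^ 2 * l j := by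
    intro i
    have h1 : (V * M * Vᵀ) i i = qf M (v i) (v i) := by
      rw [Matrix.mul_assoc, Matrix.mul_apply, qf, dotProduct]
      refine Finset.sum_congr rfl fun s _ => ?_
      rw [Matrix.mul_apply, Matrix.mulVec, dotProduct]
      rfl
    rw [← h1, hVMV, Matrix.mul_apply]
    refine Finset.sum_congr rfl fun j _ => ?_
    rw [Matrix.mul_diagonal, Matrix.transpose_apply]
    ring
  set W : Matrix (Fin n) (Fin n) ℝ := Matrix.of fun i j => P i j ^ 2 with hW
  have hWd : W ∈ doublyStochastic ℝ (Fin n) := by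
    rw [mem_doublyStochastic_iff_sum]
    refine ⟨fun i j => sq_nonneg _, fun i => ?_, fun j => ?_⟩
    · have := congrFun (congrFun hPP i) i
      rw [Matrix.mul_apply, Matrix.one_apply_eq] at this
      rw [← this]
      refine Finset.sum_congr rfl fun j _ => ?_
      rw [hW, Matrix.of_apply, Matrix.transpose_apply, sq]
    · have := congrFun (congrFun hPP' j) j
      rw [Matrix.mul_apply, Matrix.one_apply_eq] at this
      rw [← this]
      refine Finset.sum_congr rfl fun i _ => ?_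
      rw [hW, Matrix.of_apply, Matrix.transpose_apply, sq]
  obtain ⟨w, hw0, hw1, hw⟩ := exists_eq_sum_perm_of_mem_doublyStochastic hWd
  have hWl : ∀ i, ∑ j, P i j ^ 2 * l j = ∑ σ : Equiv.Perm (Fin n), w σ * l (σ i) := by
    intro i
    have h1 : ∑ j, P i j ^ 2 * l j = (W.mulVec l) i := rfl
    rw [h1, ← hw, Matrix.sum_mulVec, Finset.sum_apply]
    refine Finset.sum_congr rfl fun σ _ => ?_
    rw [Matrix.smul_mulVec, Matrix.permMatrix_mulVec]
    rfl
  have hmono : Monovary (fun i : Fin n => ((i : ℕ) : ℝ)) l := by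
    refine Monotone.monovary ?_ hl.1
    intro i j hij
    show ((i : ℕ) : ℝ) ≤ ((j : ℕ) : ℝ)
    have h2 : (i : ℕ) ≤ (j : ℕ) := hij
    exact_mod_cast h2
  calc ∑ i : Fin n, ((i : ℕ) : ℝ) * qf M (v i) (v i)
      = ∑ i : Fin n, ((i : ℕ) : ℝ) * ∑ σ : Equiv.Perm (Fin n), w σ * l (σ i) := by
        refine Finset.sum_congr rfl fun i _ => ?_
        rw [hqf, hWl]
    _ = ∑ σ : Equiv.Perm (Fin n), w σ * ∑ i : Fin n, ((i : ℕ) : ℝ) * l (σ i) := by
        simp only [Finset.mul_sum]
        rw [Finset.sum_comm]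
        refine Finset.sum_congr rfl fun σ _ => Finset.sum_congr rfl fun i _ => ?_
        ring
    _ ≤ ∑ σ : Equiv.Perm (Fin n), w σ * ∑ i : Fin n, ((i : ℕ) : ℝ) * l i := by
        refine Finset.sum_le_sum fun σ _ => mul_le_mul_of_nonneg_left ?_ (hw0 σ)
        exact hmono.sum_mul_comp_perm_le_sum_mul (σ := σ)
    _ = ∑ i : Fin n, ((i : ℕ) : ℝ) * l i := by
        rw [← Finset.sum_mul, hw1, one_mul]

end Pool.Agent.H407.NL
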